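import Pool.Agent.H352Z.Moeb.Main

set_option autoImplicit false

open Pool.Agent.H352Z.Moeb

/-- For every width `w > 0` the complete flat Moebius band `M_w` has an isometric embedding
into Euclidean 4-space whose image lies in a real algebraic set of dimension 2. -/
theorem Pool.Agent.Results.MP_1b7163_gt.AAlgebraicBand.result (w : ℝ) (hw : 0 < w) :
    ∃ X : MoebiusBand w → E4, IsIsometricEmbedding w X ∧
      ∃ S : Finset (MvPolynomial (Fin 4) ℝ),
        (∀ x, (X x).ofLp ∈ zeroSet S) ∧ algDim (zeroSet S) = 2 :=
  main w hw
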